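import Pool.Agent.Wtb.Bic

/-!
# Induced paths and holes (MP_e2a513_co, reduction to diamond-free graphs)
-/

set_option autoImplicit false

namespace Wdf

open Wtb

variable {V : Type}

/-- `f 0, .., f n` is an induced path -/
def IP (G : SimpleGraph V) (n : ℕ) (f : ℕ → V) : Prop :=
  ∀ i j, i < j → j ≤ n → f i ≠ f j ∧ (G.Adj (f i) (f j) ↔ j = i + 1)

lemma IP.snoc {G : SimpleGraph V} {n : ℕ} {f : ℕ → V} {u : V} (h : IP G n f)
    (hu : ∀ i ≤ n, f i ≠ u ∧ (G.Adj (f i) u ↔ i = n)) :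
    IP G (n + 1) (fun i => if i ≤ n then f i else u) := by
  intro i j hij hj
  have hi : i ≤ n := by omega
  by_cases hjn : j ≤ n
  · simp only [hi, hjn, if_true]
    exact h i j hij hjn
  · simp only [hi, hjn, if_true, if_false]
    refine ⟨(hu i hi).1, ?_⟩
    rw [(hu i hi).2]
    omega

lemma IP.cons {G : SimpleGraph V} {n : ℕ} {f : ℕ → V} {p : V} (h : IP G n f)
    (hp : ∀ i ≤ n, p ≠ f i ∧ (G.Adj p (f i) ↔ i = 0)) :
    IP G (n + 1) (fun i => Nat.casesOn i p f) := by
  intro i j hij hj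
  rcases j with _ | j
  · omega
  · rcases i with _ | i
    · change p ≠ f j ∧ (G.Adj p (f j) ↔ j + 1 = 0 + 1)
      refine ⟨(hp j (by omega)).1, ?_⟩
      rw [(hp j (by omega)).2]
      omega
    · change f i ≠ f j ∧ (G.Adj (f i) (f j) ↔ j + 1 = i + 1 + 1)
      obtain ⟨a1, a2⟩ := h i j (by omega) (by omega)
      refine ⟨a1, ?_⟩
      rw [a2]
      omega

lemma cyc_adj {N : ℕ} (hN : 3 ≤ N) (u v : Fin N) (h : (u : ℕ) < v) :
    (SimpleGraph.cycleGraph N).Adj u v ↔
      ((v : ℕ) = u + 1 ∨ ((u : ℕ) = 0 ∧ (v : ℕ) = N - 1)) := by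
  rw [SimpleGraph.cycleGraph_adj']
  have hu := u.2
  have hv := v.2
  have h1 : (u - v).val = N - v.val + u.val := by
    rw [Fin.sub_def]
    show (N - v.val + u.val) % N = _
    exact Nat.mod_eq_of_lt (by omega)
  have h2 : (v - u).val = v.val - u.val := by
    rw [Fin.sub_def]
    show (N - u.val + v.val) % N = _
    rw [show N - u.val + v.val = (v.val - u.val) + N by omega, Nat.add_mod_right]
    exact Nat.mod_eq_of_lt (by omega)
  rw [h1, h2]
  omega

lemma mkCyc {G : SimpleGraph V} {N : ℕ} (hN : 3 ≤ N) (g : ℕ → V)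
    (h : ∀ i j, i < j → j < N → g i ≠ g j ∧
      (G.Adj (g i) (g j) ↔ (j = i + 1 ∨ (i = 0 ∧ j = N - 1)))) :
    ∃ c : SimpleGraph.cycleGraph N ↪g G, ∀ i : Fin N, c i = g i := by
  refine ⟨{ toFun := fun i => g i, inj' := ?_, map_rel_iff' := ?_ }, fun _ => rfl⟩
  · intro i j hij
    have hij' : g i = g j := hij
    rcases lt_trichotomy (i : ℕ) (j : ℕ) with h1 | h1 | h1
    · exact absurd hij' (h i j h1 j.2).1
    · exact Fin.ext h1
    · exact absurd hij'.symm (h j i h1 i.2).1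
  · intro i j
    change G.Adj (g i) (g j) ↔ _
    rcases lt_trichotomy (i : ℕ) (j : ℕ) with h1 | h1 | h1
    · rw [(h i j h1 j.2).2, cyc_adj hN i j h1]
    · have hij : i = j := Fin.ext h1
      subst hij
      simp
    · rw [G.adj_comm, (h j i h1 i.2).2, SimpleGraph.adj_comm, cyc_adj hN j i h1]

/-- an induced path closed by a vertex `x`, and a hub `z` -/
lemma IP.wheel {G : SimpleGraph V} {m : ℕ} {f : ℕ → V} {x z : V} (h : IP G m f) (hm : 2 ≤ m)
    (hx : ∀ i ≤ m, f i ≠ x ∧ (G.Adj (f i) x ↔ (i = 0 ∨ i = m))) (hzx : G.Adj z x)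
    (hz : ∀ i ≤ m, z ≠ f i) {i j : ℕ} (hi : i ≤ m) (hj : j ≤ m) (hij : i ≠ j)
    (hzi : G.Adj z (f i)) (hzj : G.Adj z (f j)) : Whl.HasWheel G := by
  obtain ⟨c, hc⟩ := mkCyc (G := G) (N := m + 2) (by omega) (fun i => if i ≤ m then f i else x) (by
    intro i j hij hj
    have hi : i ≤ m := by omega
    by_cases hjm : j ≤ m
    · simp only [hi, hjm, if_true]
      obtain ⟨a1, a2⟩ := h i j hij hjm
      refine ⟨a1, ?_⟩
      rw [a2]
      omega
    · simp only [hi, hjm, if_true, if_false]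
      obtain ⟨a1, a2⟩ := hx i hi
      refine ⟨a1, ?_⟩
      rw [a2]
      omega)
  refine ⟨m + 2, by omega, c, z, ?_, ⟨i, by omega⟩, ⟨j, by omega⟩, ⟨m + 1, by omega⟩, ?_, ?_, ?_,
    ?_, ?_, ?_⟩
  · rintro ⟨k, hk⟩
    rw [hc] at hk
    by_cases hkm : (k : ℕ) ≤ m
    · simp only [hkm, if_true] at hk
      exact hz k hkm hk.symm
    · simp only [hkm, if_false] at hk
      exact hzx.ne hk.symm
  · intro he
    exact hij (congrArg Fin.val he)
  · intro he
    have := congrArg Fin.val he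
    simp only at this
    omega
  · intro he
    have := congrArg Fin.val he
    simp only at this
    omega
  · rw [hc]
    simp only [hi, if_true]
    exact hzi
  · rw [hc]
    simp only [hj, if_true]
    exact hzj
  · rw [hc]
    have : ¬ (m + 1 ≤ m) := by omega
    simp only [this, if_false]
    exact hzx

/-- an induced path between two attachments of a connected set -/
lemma upper [Finite V] {G : SimpleGraph V} (k : ℕ) : ∀ (Z : Set V) (p q : V), Z.ncard ≤ k →
    Conn G Z → p ∉ Z → q ∉ Z → p ≠ q → ¬ G.Adj p q → (∃ u ∈ Z, G.Adj p u) →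
    (∃ u ∈ Z, G.Adj q u) →
    ∃ (n : ℕ) (f : ℕ → V), 1 ≤ n ∧ IP G n f ∧ f 0 = p ∧ f n = q ∧
      ∀ i, 1 ≤ i → i < n → f i ∈ Z := by
  induction k with
  | zero =>
    intro Z p q hk hc hp hq hpq hpq' hu hu'
    exfalso
    obtain ⟨u, hu, _⟩ := hu
    have h1 : Z.ncard = 0 := by omega
    rw [Set.ncard_eq_zero (Set.toFinite Z)] at h1
    rw [h1] at hu
    exact hu
  | succ k ih =>
    intro Z p q hk hc hp hq hpq hpq' hu hu'
    by_cases hcase : ∃ u ∈ Z, G.Adj p u ∧ G.Adj u q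
    · obtain ⟨u, huZ, hpu, huq⟩ := hcase
      refine ⟨2, fun i => if i = 0 then p else if i = 1 then u else q, by omega, ?_, rfl, rfl, ?_⟩
      · intro i j hij hj
        have : (i = 0 ∧ j = 1) ∨ (i = 0 ∧ j = 2) ∨ (i = 1 ∧ j = 2) := by omega
        rcases this with ⟨rfl, rfl⟩ | ⟨rfl, rfl⟩ | ⟨rfl, rfl⟩
        · simpa using ⟨hpu.ne, hpu⟩
        · simpa using ⟨hpq, hpq'⟩
        · simpa using ⟨huq.ne, huq⟩
      · intro i h1 h2
        have : i = 1 := by omega
        subst this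
        exact huZ
    · push Not at hcase
      obtain ⟨d, hd, hqd⟩ := hu'
      have hpd : ¬ G.Adj p d := fun h => hcase d hd h hqd.symm
      obtain ⟨u0, hu0, hpu0⟩ := hu
      obtain ⟨C', h1, h2, h3, h4⟩ := comp_mem (G := G) (S := {x | x ∈ Z ∧ ¬ G.Adj p x}) (d := d)
        ⟨hd, hpd⟩
      have hsub : C' ⊆ Z := fun x hx => (h1 hx).1
      have hnv : ∀ x ∈ C', ¬ G.Adj p x := fun x hx => (h1 hx).2
      obtain ⟨y, hy, u, hu, huC', hyu⟩ := hc.exit hsub ⟨d, h3⟩ ⟨u0, hu0, fun h => hnv u0 h hpu0⟩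
      have hpu : G.Adj p u := by
        by_contra h
        exact huC' (h4 y hy u ⟨hu, h⟩ hyu)
      have hlt : C'.ncard < Z.ncard := by
        refine Set.ncard_lt_ncard ?_ (Set.toFinite Z)
        refine lt_of_le_of_ne hsub ?_
        intro he
        exact huC' (he ▸ hu)
      obtain ⟨n, f, hn, hf, f0, fn, fi⟩ := ih C' u q (by omega) h2 huC' (fun h => hq (hsub h))
        (fun h => hq (h ▸ hu)) (fun h => hcase u hu hpu h) ⟨y, hy, hyu.symm⟩ ⟨d, h3, hqd⟩
      refine ⟨n + 1, fun i => Nat.casesOn i p f, by omega, hf.cons ?_, rfl, fn, ?_⟩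
      · intro i hi
        rcases Nat.eq_zero_or_pos i with h0 | h0
        · subst h0
          rw [f0]
          exact ⟨hpu.ne, fun _ => rfl, fun _ => hpu⟩
        · rcases Nat.lt_or_ge i n with h5 | h5
          · have hm := fi i h0 h5
            exact ⟨fun h => hp (h ▸ hsub hm), fun h => absurd h (hnv _ hm), fun h => by omega⟩
          · have : i = n := by omega
            subst this
            rw [fn]
            exact ⟨hpq, fun h => absurd h hpq', fun h => by omega⟩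
      · intro i h5 h6
        rcases i with _ | i
        · omega
        · change f i ∈ Z
          rcases Nat.eq_zero_or_pos i with h0 | h0
          · subst h0
            rw [f0]
            exact hu
          · exact hsub (fi i h0 (by omega))

/-- the same for distinct vertices, adjacent or not -/
lemma upper' [Finite V] {G : SimpleGraph V} {Z : Set V} {p q : V} (hc : Conn G Z) (hp : p ∉ Z)
    (hq : q ∉ Z) (hpq : p ≠ q) (hu : ∃ u ∈ Z, G.Adj p u) (hu' : ∃ u ∈ Z, G.Adj q u) :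
    ∃ (n : ℕ) (f : ℕ → V), 1 ≤ n ∧ IP G n f ∧ f 0 = p ∧ f n = q ∧
      ∀ i, 1 ≤ i → i < n → f i ∈ Z := by
  by_cases h : G.Adj p q
  · refine ⟨1, fun i => if i = 0 then p else q, le_rfl, ?_, rfl, rfl, fun i h1 h2 => by omega⟩
    intro i j hij hj
    have : i = 0 ∧ j = 1 := by omega
    obtain ⟨rfl, rfl⟩ := this
    simpa using ⟨hpq, h⟩
  · exact upper Z.ncard Z p q le_rfl hc hp hq hpq h hu hu'

end Wdf
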